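import Pool.Agent.N870.EC.Stm
import Pool.Agent.Y728.RC.Se
import Pool.Agent.TH841.SH.SelR
import Pool.Agent.W672.FK.Lowf

/-! Project EC: the Selmer groups of the curves with torsion `Z/2 x Z/4` (helper300). -/

set_option autoImplicit false

namespace Pool.Agent.N300.EC

open Finset Polynomial Pool.Agent.N870.EC

open scoped Classical

open Pool.Agent.TH841.SH (IsR)
open Pool.Agent.W307.SE (Sel SN SelR Loc SELD)
open Pool.Agent.W307.RT (Sh HasT Cv)
open Pool.Agent.Y667.SX (Sel2H)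

theorem loc9 (K : Type) [Field K] [CharZero K] {A B d1 d2 : ℤ} (h : Loc K A B d1 d2) :
    Loc K (9 * A) (9 * B) d1 d2 := by
  obtain ⟨x, y, hy, h1, ⟨s, hs⟩, ⟨t, ht⟩⟩ := h
  refine ⟨9 * x, 27 * y, mul_ne_zero (by norm_num) hy, ?_, ⟨3 * s, ?_⟩, ⟨3 * t, ?_⟩⟩
  · push_cast
    linear_combination 729 * h1
  · linear_combination 9 * hs
  · push_cast
    linear_combination 9 * ht

theorem seld : SELD :=
  Pool.Agent.W612.SE.seld_of (Pool.Agent.W405.SE.goodp_of Pool.Agent.W407.SE.ratp)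

theorem SN9 {A B : ℤ} (hA : A ≠ 0) (hB : B ≠ 0) (hAB : A ≠ B) : SN A B ≤ SN (9 * A) (9 * B) := by
  unfold SN
  have h1 : Sel A B ⊆ Sel (9 * A) (9 * B) := by
    rintro d ⟨h1, h2, h3, h4⟩
    exact ⟨h1, h2, loc9 ℝ h3, fun p _ => loc9 ℚ_[p] (h4 p)⟩
  have h2 : (Sel (9 * A) (9 * B)).Finite :=
    Pool.Agent.W307.SE.sel_fin seld (mul_ne_zero (by norm_num) hA) (mul_ne_zero (by norm_num) hB)
      fun h => hAB (mul_left_cancel₀ (by norm_num) h)
  exact_mod_cast Set.ncard_le_ncard h1 h2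

theorem t_SZ4 (h : S_SELGE) : S_SZ4 := by
  intro a b ha hb hab hne
  have ha0 : (a : ℤ) ^ 2 ≠ 0 := pow_ne_zero 2 (by omega)
  have hb0 : (b : ℤ) ^ 2 ≠ 0 := pow_ne_zero 2 (by omega)
  have hab0 : (a : ℤ) ^ 2 ≠ (b : ℤ) ^ 2 := by
    intro h1
    have h2 : a ^ 2 = b ^ 2 := by exact_mod_cast h1
    exact hne (Nat.pow_left_injective (by norm_num) h2)
  set u : ℤ := (a : ℤ) ^ 2 with hu
  set v : ℤ := (b : ℤ) ^ 2 with hv
  have hc1 : (cd a b).1 = -27 * (u ^ 2 - u * v + v ^ 2) := by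
    simp only [cd, hu, hv]
    ring
  have hc2 : (cd a b).2 = -27 * (u + v) * (2 * u - v) * (2 * v - u) := by
    simp only [cd, hu, hv]
  have hD : 4 * (cd a b).1 ^ 3 + 27 * (cd a b).2 ^ 2 ≠ 0 := by
    have : 4 * (cd a b).1 ^ 3 + 27 * (cd a b).2 ^ 2 = -(729 * (u * v * (u - v))) ^ 2 := by
      rw [hc1, hc2]
      ring
    rw [this, neg_ne_zero]
    exact pow_ne_zero 2 (mul_ne_zero (by norm_num) (mul_ne_zero (mul_ne_zero ha0 hb0) (sub_ne_zero.2 hab0)))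
  have hT : HasT 2 (Sh (cd a b).1 (cd a b).2) := by
    apply Pool.Agent.W672.FK.hasT2 (a := -3 * (u : ℚ)) (b := -3 * (v : ℚ))
    · rw [hc1]
      push_cast
      ring
    · rw [hc2]
      push_cast
      ring
    · exact mul_ne_zero (by norm_num) (by exact_mod_cast ha0)
    · exact mul_ne_zero (by norm_num) (by exact_mod_cast hb0)
    · rw [← mul_sub]
      exact mul_ne_zero (by norm_num) (sub_ne_zero.2 (by exact_mod_cast hab0))
  have hR : IsR (Sh (cd a b).1 (cd a b).2) ((3 * (u + v) : ℤ) : ℚ) ((-3 * (2 * u - v) : ℤ) : ℚ)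
      ((-3 * (2 * v - u) : ℤ) : ℚ) := by
    apply Pool.Agent.TH841.SH.isR_Sh
    intro x
    rw [hc1, hc2]
    ring
  obtain ⟨⟨hfin, hcard⟩, -⟩ := Pool.Agent.Y728.RC.sel_eq hD hT
  have key := h (Sh (cd a b).1 (cd a b).2) (3 * (u + v)) (-3 * (2 * u - v)) (-3 * (2 * v - u))
    (fun h1 => ha0 (by linarith)) (fun h1 => hb0 (by linarith)) (fun h1 => hab0 (by linarith)) hR hfin
  rw [hcard] at key
  have e1 : -3 * (2 * u - v) - 3 * (u + v) = 9 * -u := by ring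
  have e2 : -3 * (2 * v - u) - 3 * (u + v) = 9 * -v := by ring
  rw [e1, e2] at key
  exact (SN9 (neg_ne_zero.2 ha0) (neg_ne_zero.2 hb0) fun h1 => hab0 (neg_injective h1)).trans key

end Pool.Agent.N300.EC
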